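import Mathlib
import Pool.Agent.Lib.helper22.Dpg

set_option autoImplicit false

namespace Pool.Agent.Results.MP_d3b86e_co.Finite

open Pool.Agent.Lib.H22Dpg

theorem result (k g : ℕ) (hk : 3 ≤ k) (_hg : 3 ≤ g) :
    ∃ (n : ℕ) (G : SimpleGraph (Fin n)), (g : ℕ∞) ≤ G.egirth ∧ ∃ t : ℕ, Wins k t (Fin n) G := by
  obtain ⟨n, G, h, t, ht⟩ := forest_wins k (by omega)
  exact ⟨n, G, by rw [SimpleGraph.egirth_eq_top.2 h]; exact le_top, t, ht⟩

end Pool.Agent.Results.MP_d3b86e_co.Finite
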